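import Mathlib

namespace Pool.Agent.Results.MP_4c0b8d_co.Counter

/-- Every member of the family lies in `X1 ∪ X2` and has `k` points in `X1`, `l` points in `X2`. -/
def InLayer (X1 X2 : Finset ℕ) (k l : ℕ) (𝓕 : Finset (Finset ℕ)) : Prop :=
  ∀ F ∈ 𝓕, F ⊆ X1 ∪ X2 ∧ (F ∩ X1).card = k ∧ (F ∩ X2).card = l

/-- Any two members meet. -/
def Intersecting (𝓕 : Finset (Finset ℕ)) : Prop :=
  ∀ F ∈ 𝓕, ∀ G ∈ 𝓕, F ∩ G ≠ ∅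

/-- Two-sided intersecting family. -/
def TwoSided (X1 X2 : Finset ℕ) (𝓕 : Finset (Finset ℕ)) : Prop :=
  Intersecting 𝓕 ∧ (∃ F ∈ 𝓕, ∃ G ∈ 𝓕, F ∩ G ∩ X1 = ∅) ∧ (∃ F ∈ 𝓕, ∃ G ∈ 𝓕, F ∩ G ∩ X2 = ∅)

/-- The quantity `A` of the problem, as an integer. -/
def boundA (n1 n2 k l : ℕ) : ℤ :=
  ((Nat.choose (n2 - 1) (l - 1) : ℤ) - (Nat.choose (n2 - l - 1) (l - 1) : ℤ)) * (Nat.choose n1 k : ℤ)
    + 1 + (Nat.choose n1 k : ℤ) - (Nat.choose (n1 - k) k : ℤ)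

/-- The quantity `B` of the problem, as an integer. -/
def boundB (n1 n2 k l : ℕ) : ℤ :=
  ((Nat.choose (n1 - 1) (k - 1) : ℤ) - (Nat.choose (n1 - k - 1) (k - 1) : ℤ)) * (Nat.choose n2 l : ℤ)
    + 1 + (Nat.choose n2 l : ℤ) - (Nat.choose (n2 - l) l : ℤ)

/-- The conjectured bound fails for the parameters `n1, n2, k, l`. -/
def Fails (n1 n2 k l : ℕ) : Prop :=
  ∃ (X1 X2 : Finset ℕ) (𝓕 : Finset (Finset ℕ)),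
    Disjoint X1 X2 ∧ X1.card = n1 ∧ X2.card = n2 ∧
    InLayer X1 X2 k l 𝓕 ∧ TwoSided X1 X2 𝓕 ∧
    max (boundA n1 n2 k l) (boundB n1 n2 k l) < (𝓕.card : ℤ)

theorem first : Fails 3 5 1 2 := by
  refine ⟨{0, 1, 2}, {3, 4, 5, 6, 7},
    {{0, 3, 4}, {0, 3, 5}, {0, 3, 6}, {0, 3, 7}, {0, 4, 5},
     {1, 3, 4}, {1, 3, 5}, {2, 3, 4}, {2, 3, 5}}, ?_, ?_, ?_, ?_, ?_, ?_⟩
  · decide +kernel
  · decide +kernel
  · decide +kernel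
  · unfold InLayer; decide +kernel
  · unfold TwoSided Intersecting; decide +kernel
  · decide +kernel

/-- The members of the second family. -/
def fam : List (Finset ℕ) :=
  [{0, 1, 5, 6}, {0, 1, 5, 7}, {0, 1, 5, 8}, {0, 1, 5, 9}, {0, 2, 5, 6}, {0, 2, 5, 7}, {0, 2, 5, 8}, {0, 2, 5, 9}, {0, 3, 5, 6}, {0, 3, 5, 7}, {0, 3, 5, 8}, {0, 3, 5, 9}, {0, 4, 5, 6}, {0, 4, 5, 7}, {0, 4, 5, 8}, {0, 4, 5, 9}, {1, 2, 5, 6}, {1, 2, 5, 7}, {1, 2, 5, 8}, {1, 2, 5, 9}, {1, 3, 5, 6}, {1, 3, 5, 7}, {1, 3, 5, 8}, {1, 3, 5, 9}, {1, 4, 5, 6}, {1, 4, 5, 7}, {1, 4, 5, 8}, {1, 4, 5, 9}, {2, 3, 5, 6}, {2, 3, 5, 7}, {2, 4, 5, 6}, {2, 4, 5, 7}, {3, 4, 5, 6}, {3, 4, 5, 7}, {0, 1, 6, 7}]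

theorem second : Fails 5 5 2 2 := by
  refine ⟨{0, 1, 2, 3, 4}, {5, 6, 7, 8, 9}, fam.toFinset, ?_, ?_, ?_, ?_, ?_, ?_⟩
  · decide +kernel
  · decide +kernel
  · decide +kernel
  · unfold InLayer; decide +kernel
  · unfold TwoSided Intersecting; decide +kernel
  · decide +kernel

theorem result : Fails 3 5 1 2 ∧ Fails 5 5 2 2 := ⟨first, second⟩

end Pool.Agent.Results.MP_4c0b8d_co.Counter
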